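import Pool.Agent.Work.MP_f345de_al.TwoGen

set_option autoImplicit false

/-!
# Orders on `F / [H, H]` for all ranks of the free group `F`

For the free group `F` on a set `α`: every normal subgroup `H` with `F / H` right-orderable has
`F / [H, H]` orderable if and only if `α` has at most one element. So the answer to the question is
negative for every free group of rank at least two, finite or infinite.

Idea. Let `X` be the set of the points over irrational numbers in the universal cover of the real
projective line, a totally ordered set. The group `G` generated by the lifts `u, t, m, n` of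
`r + 1`, `-1 / r`, `4 r`, `9 r` acts on `X`; `t ^ 2` is central in `G`, and the only normal subgroup
of `G` modulo which `t` is central is `G`. Let `E` be a group with an order invariant on both
sides and an abelian normal subgroup `A` such that `E / A` contains `G`. The preimage of `G` is
finitely generated modulo `A`; this forces `t` to be central, a contradiction. The copies of
`u, t, m, n` at sparse places of `ℤ × X`, taken together as one automorphism, and the shift of
`ℤ × X` generate a right-orderable group with two generators that contains `G`.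
-/

namespace Pool.Agent.Results.MP_f345de_al.AllRanks

open Pool.Agent.Work.MP_f345de_al
open scoped commutatorElement

universe u v

/-- `G` admits a total order with `x ≤ y → x * z ≤ y * z`. -/
def RightOrderable (G : Type u) [Group G] : Prop :=
  ∃ _ : LinearOrder G, ∀ x y z : G, x ≤ y → x * z ≤ y * z

/-- `G` admits a total order with `x ≤ y → z * x ≤ z * y` and `x ≤ y → x * z ≤ y * z`. -/
def Orderable (G : Type u) [Group G] : Prop :=
  ∃ _ : LinearOrder G, (∀ x y z : G, x ≤ y → z * x ≤ z * y) ∧
    ∀ x y z : G, x ≤ y → x * z ≤ y * z

theorem RightOrderable.of_injective {G : Type u} {K : Type v} [Group G] [Group K] (f : G →* K)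
    (hf : Function.Injective f) (h : RightOrderable K) : RightOrderable G := by
  obtain ⟨o, ho⟩ := h
  refine ⟨LinearOrder.lift' f hf, fun x y z hxy => ?_⟩
  show f (x * z) ≤ f (y * z)
  rw [map_mul, map_mul]
  exact ho _ _ _ hxy

theorem Orderable.of_injective {G : Type u} {K : Type v} [Group G] [Group K] (f : G →* K)
    (hf : Function.Injective f) (h : Orderable K) : Orderable G := by
  obtain ⟨o, ho, ho'⟩ := h
  refine ⟨LinearOrder.lift' f hf, fun x y z hxy => ?_, fun x y z hxy => ?_⟩
  · show f (z * x) ≤ f (z * y)
    rw [map_mul, map_mul]
    exact ho _ _ _ hxy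
  · show f (x * z) ≤ f (y * z)
    rw [map_mul, map_mul]
    exact ho' _ _ _ hxy

/-- The two-generator group acts faithfully on a totally ordered set. -/
theorem rightOrderable_KK : RightOrderable KK :=
  exists_rightOrder KK.subtype KK.subtype_injective

/-- No extension of an abelian group by the two-generator group is orderable. -/
theorem not_orderable {E : Type u} [Group E] (π : E →* KK) (hπ : Function.Surjective π)
    (hk : ∀ a ∈ π.ker, ∀ b ∈ π.ker, a * b = b * a) : ¬ Orderable E := by
  rintro ⟨o, hl, hr⟩
  have : MulLeftMono E := ⟨fun c a b h => hl a b c h⟩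
  have : MulRightMono E := ⟨fun c a b h => hr a b c h⟩
  obtain ⟨u, t, m, n, hrel, ht⟩ := exists_rels
  exact no_order hrel ht π hπ hk

/-- The infinite cyclic group is orderable. -/
theorem orderable_int : Orderable (Multiplicative ℤ) :=
  ⟨inferInstance, fun _ _ _ h => mul_le_mul_right h _, fun _ _ _ h => mul_le_mul_left h _⟩

/-- The free group of rank at most one embeds in the infinite cyclic group. -/
theorem exists_emb (α : Type u) [Subsingleton α] :
    ∃ f : FreeGroup α →* Multiplicative ℤ, Function.Injective f := by
  refine ⟨FreeGroup.lift fun _ => Multiplicative.ofAdd 1, ?_⟩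
  rw [injective_iff_map_eq_one]
  intro x hx
  rcases isEmpty_or_nonempty α with hα | ⟨⟨a⟩⟩
  · exact Subsingleton.elim _ _
  · have h1 : ∀ y : FreeGroup α, ∃ k : ℤ, y = FreeGroup.of a ^ k := by
      intro y
      have h2 : y ∈ Subgroup.zpowers (FreeGroup.of a) := by
        have h3 : Subgroup.zpowers (FreeGroup.of a) = ⊤ := by
          rw [eq_top_iff, ← FreeGroup.closure_range_of, Subgroup.closure_le]
          rintro _ ⟨b, rfl⟩
          rw [Subsingleton.elim b a]
          exact Subgroup.mem_zpowers _
        rw [h3]
        exact Subgroup.mem_top y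
      obtain ⟨k, hk⟩ := h2
      exact ⟨k, hk.symm⟩
    obtain ⟨k, rfl⟩ := h1 x
    rw [map_zpow, FreeGroup.lift_apply_of, ← ofAdd_zsmul] at hx
    have hk : k = 0 := by
      have := congrArg Multiplicative.toAdd hx
      simpa using this
    rw [hk, zpow_zero]

/-- For the free group `F` on a set `α`: every normal subgroup `H` such that `F / H` is
right-orderable has `F / [H, H]` orderable if and only if `α` has at most one element. -/
theorem result (α : Type u) :
    (∀ (H : Subgroup (FreeGroup α)) [H.Normal],
      RightOrderable (FreeGroup α ⧸ H) → Orderable (FreeGroup α ⧸ ⁅H, H⁆)) ↔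
    Subsingleton α := by
  constructor
  · intro hall
    by_contra hα
    rw [not_subsingleton_iff_nontrivial] at hα
    obtain ⟨a, b, hab⟩ := hα.exists_pair_ne
    classical
    let φ : FreeGroup α →* KK :=
      FreeGroup.lift fun c => if c = a then ⟨sY, sY_mem⟩ else if c = b then ⟨blk FF, blk_mem⟩ else 1
    have φa : φ (FreeGroup.of a) = ⟨sY, sY_mem⟩ := by simp [φ]
    have φb : φ (FreeGroup.of b) = ⟨blk FF, blk_mem⟩ := by simp [φ, hab.symm]
    have hφ : Function.Surjective φ := by
      rw [← MonoidHom.range_eq_top, eq_top_iff, ← KK_gen, Subgroup.closure_le]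
      rintro x (rfl | rfl)
      · exact ⟨_, φa⟩
      · exact ⟨_, φb⟩
    have h1 : RightOrderable (FreeGroup α ⧸ φ.ker) :=
      rightOrderable_KK.of_injective (QuotientGroup.kerLift φ) (QuotientGroup.kerLift_injective φ)
    let π : FreeGroup α ⧸ ⁅φ.ker, φ.ker⁆ →* KK :=
      QuotientGroup.lift ⁅φ.ker, φ.ker⁆ φ fun x hx => Subgroup.commutator_le_left _ _ hx
    have hπ : Function.Surjective π := fun y => by
      obtain ⟨x, hx⟩ := hφ y
      exact ⟨(x : FreeGroup α ⧸ ⁅φ.ker, φ.ker⁆), hx⟩
    refine not_orderable π hπ ?_ (hall φ.ker h1)
    intro x hx y hy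
    induction x using QuotientGroup.induction_on with
    | H x =>
      induction y using QuotientGroup.induction_on with
      | H y =>
        have hx' : x ∈ φ.ker := hx
        have hy' : y ∈ φ.ker := hy
        have h2 : ⁅x, y⁆ ∈ ⁅φ.ker, φ.ker⁆ := Subgroup.commutator_mem_commutator hx' hy'
        have h3 : (QuotientGroup.mk' ⁅φ.ker, φ.ker⁆) ⁅x, y⁆ = 1 :=
          (QuotientGroup.eq_one_iff _).2 h2
        rw [map_commutatorElement, commutatorElement_eq_one_iff_mul_comm] at h3
        exact h3
  · intro hα H hH _
    obtain ⟨f, hf⟩ := exists_emb α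
    have hbot : ⁅H, H⁆ = ⊥ := by
      rw [eq_bot_iff, Subgroup.commutator_le]
      intro x _ y _
      rw [Subgroup.mem_bot, commutatorElement_eq_one_iff_mul_comm]
      apply hf
      rw [map_mul, map_mul, mul_comm]
    refine orderable_int.of_injective (QuotientGroup.lift ⁅H, H⁆ f fun x hx => ?_) ?_
    · rw [hbot, Subgroup.mem_bot] at hx
      rw [hx]
      exact f.ker.one_mem
    · rw [injective_iff_map_eq_one]
      intro x hx
      induction x using QuotientGroup.induction_on with
      | H x =>
        have h1 : f x = 1 := hx
        have h2 : x = 1 := (injective_iff_map_eq_one f).1 hf x h1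
        rw [h2]
        rfl

end Pool.Agent.Results.MP_f345de_al.AllRanks
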